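import Pool.Agent.V11155.NegPairD

/-!
# Pairs of edges in a common negative circle: signed complete graphs

The definitions `walkSign`, `NegPairProp` and `Balanced` are in `Pool.Agent.V11155.NegPairA` and
`Pool.Agent.V11155.NegPairD`.
-/

set_option autoImplicit false

namespace Pool.Agent.Results.MP_790549_co.CompleteGraphs

open SimpleGraph Finset Pool.Agent.V11155.NegPair

/-- `G` is 3-connected: it has at least four vertices, and deleting at most two vertices leaves a
connected graph. -/
def ThreeConnected {V : Type} [Fintype V] (G : SimpleGraph V) : Prop :=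
  4 ≤ Fintype.card V ∧ ∀ S : Finset V, S.card ≤ 2 → (G.induce {v | v ∉ S}).Connected

/-- every vertex has at least three neighbours -/
def MinDegThree {V : Type} (G : SimpleGraph V) : Prop :=
  ∀ x : V, ∃ a b c : V, G.Adj x a ∧ G.Adj x b ∧ G.Adj x c ∧ a ≠ b ∧ a ≠ c ∧ b ≠ c

theorem necessary {V : Type} (G : SimpleGraph V) (σ : Sym2 V → ℤˣ) (hd : MinDegThree G)
    (hN : NegPairProp G σ) :
    (∀ x : V, ¬ Balanced (G.deleteIncidenceSet x) σ) ∧
    ∀ e ∈ G.edgeSet, ∀ f ∈ G.edgeSet, e ≠ f → ¬ Balanced (G.deleteEdges {e, f}) σ := by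
  constructor
  · intro x hB
    rw [balanced_iff] at hB
    obtain ⟨p, hp⟩ := hB
    obtain ⟨a, b, c, h1, h2, h3, h4, h5, h6⟩ := hd x
    refine fail_vertex σ p x ?_ a b c h1 h2 h3 h4 h5 h6 hN
    intro u v huv hu hv
    apply hp
    rw [deleteIncidenceSet_adj]
    exact ⟨huv, hu, hv⟩
  · intro e he f hf hef hB
    rw [balanced_iff] at hB
    obtain ⟨p, hp⟩ := hB
    refine fail_edges σ p e f he hf hef hd ?_ hN
    intro u v huv h1 h2
    apply hp
    rw [deleteEdges_adj]
    exact ⟨huv, by simp [h1, h2]⟩

theorem exists_three {V : Type} [Fintype V] (h4 : 4 ≤ Fintype.card V) : MinDegThree (⊤ : SimpleGraph V) := by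
  classical
  intro x
  have hc : 3 ≤ (Finset.univ.erase x).card := by
    rw [Finset.card_erase_of_mem (Finset.mem_univ x), Finset.card_univ]
    omega
  obtain ⟨t, ht, htc⟩ := Finset.exists_subset_card_eq hc
  obtain ⟨a, b, c, hab, hac, hbc, rfl⟩ := Finset.card_eq_three.mp htc
  have hx : ∀ y ∈ ({a, b, c} : Finset V), x ≠ y := by
    intro y hy
    exact (Finset.ne_of_mem_erase (ht hy)).symm
  exact ⟨a, b, c, hx a (by simp), hx b (by simp), hx c (by simp), hab, hac, hbc⟩

theorem sufficient {V : Type} (σ : Sym2 V → ℤˣ)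
    (h1 : ∀ x : V, ¬ Balanced ((⊤ : SimpleGraph V).deleteIncidenceSet x) σ)
    (h2 : ∀ e ∈ (⊤ : SimpleGraph V).edgeSet, ∀ f ∈ (⊤ : SimpleGraph V).edgeSet, e ≠ f →
      ¬ Balanced ((⊤ : SimpleGraph V).deleteEdges {e, f}) σ) :
    NegPairProp (⊤ : SimpleGraph V) σ := by
  classical
  intro e he f hf hef
  by_contra hcon
  have hpos : ∀ (v : V) (C : (⊤ : SimpleGraph V).Walk v v), C.IsCycle → e ∈ C.edges →
      f ∈ C.edges → walkSign σ C = 1 := by
    intro v C hC h3 h4
    rcases Int.units_eq_one_or (walkSign σ C) with h | h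
    · exact h
    · exact absurd ⟨v, C, hC, h3, h4, h⟩ hcon
  induction e using Sym2.ind with
  | _ a b =>
    induction f using Sym2.ind with
    | _ c d =>
      have hab : a ≠ b := by
        rw [mem_edgeSet] at he; exact he
      have hcd : c ≠ d := by
        rw [mem_edgeSet] at hf; exact hf
      have adj : ∀ x a b : V, x ≠ a → x ≠ b → a ≠ b → (∀ (v : V)
          (C : (⊤ : SimpleGraph V).Walk v v), C.IsCycle → s(x, a) ∈ C.edges →
          s(x, b) ∈ C.edges → walkSign σ C = 1) → False := by
        intro x a b hxa hxb hab h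
        obtain ⟨p, hp⟩ := adj_case σ hxa hxb hab h
        apply h1 x
        rw [balanced_iff]
        refine ⟨p, ?_⟩
        intro u v huv
        rw [deleteIncidenceSet_adj] at huv
        exact hp u v huv.1 huv.2.1 huv.2.2
      by_cases hac : a = c
      · subst hac
        have hbd : b ≠ d := fun h => hef (by rw [h])
        exact adj a b d hab hcd hbd hpos
      · by_cases had : a = d
        · subst had
          have hbc : b ≠ c := fun h => hef (by rw [h]; exact Sym2.eq_swap)
          refine adj a b c hab (Ne.symm hcd) hbc ?_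
          intro v C hC k1 k2
          exact hpos v C hC k1 (by rw [Sym2.eq_swap]; exact k2)
        · by_cases hbc : b = c
          · subst hbc
            refine adj b a d hab.symm hcd had ?_
            intro v C hC k1 k2
            exact hpos v C hC (by rw [Sym2.eq_swap]; exact k1) k2
          · by_cases hbd : b = d
            · subst hbd
              refine adj b a c hab.symm hbc hac ?_
              intro v C hC k1 k2
              exact hpos v C hC (by rw [Sym2.eq_swap]; exact k1) (by rw [Sym2.eq_swap]; exact k2)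
            · obtain ⟨p, hp⟩ := disj_case σ hab hac had hbc hbd hcd hpos
              apply h2 _ he _ hf hef
              rw [balanced_iff]
              refine ⟨p, ?_⟩
              intro u v huv
              rw [deleteEdges_adj] at huv
              have hnot := huv.2
              simp only [Set.mem_insert_iff, Set.mem_singleton_iff, not_or] at hnot
              exact hp u v huv.1 hnot.1 hnot.2

theorem complete_threeConnected {V : Type} [Fintype V] (h4 : 4 ≤ Fintype.card V) :
    ThreeConnected (⊤ : SimpleGraph V) := by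
  classical
  refine ⟨h4, ?_⟩
  intro S hS
  have hne : ∃ v, v ∉ S := by
    by_contra hcon
    push Not at hcon
    have : Finset.univ ⊆ S := fun v _ => hcon v
    have := Finset.card_le_card this
    rw [Finset.card_univ] at this
    omega
  obtain ⟨v0, hv0⟩ := hne
  have : Nonempty {v | v ∉ S} := ⟨⟨v0, hv0⟩⟩
  refine ⟨?_⟩
  intro x y
  by_cases hxy : x = y
  · subst hxy; exact Reachable.refl _
  · apply Adj.reachable
    change x.1 ≠ y.1
    exact fun h => hxy (Subtype.ext h)

theorem minDeg_of_threeConnected {V : Type} [Fintype V] (G : SimpleGraph V)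
    (h : ThreeConnected G) : MinDegThree G := by
  classical
  intro x
  by_contra hcon
  have hN : (G.neighborFinset x).card ≤ 2 := by
    by_contra h3
    push Not at h3
    obtain ⟨a, ha, b, hb, c, hc, hab, hac, hbc⟩ := Finset.two_lt_card.mp h3
    exact hcon ⟨a, b, c, (G.mem_neighborFinset x a).mp ha, (G.mem_neighborFinset x b).mp hb,
      (G.mem_neighborFinset x c).mp hc, hab, hac, hbc⟩
  have hconn := h.2 _ hN
  have hex : ∃ y, y ∉ insert x (G.neighborFinset x) := by
    by_contra hall
    push Not at hall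
    have hsub : (Finset.univ : Finset V) ⊆ insert x (G.neighborFinset x) := fun v _ => hall v
    have h1 := Finset.card_le_card hsub
    have h2 := Finset.card_insert_le x (G.neighborFinset x)
    rw [Finset.card_univ] at h1
    have h3 := h.1
    omega
  obtain ⟨y, hy⟩ := hex
  have hxS : x ∉ G.neighborFinset x := by simp
  have hyS : y ∉ G.neighborFinset x := fun h => hy (Finset.mem_insert_of_mem h)
  obtain ⟨w⟩ := hconn.preconnected ⟨x, hxS⟩ ⟨y, hyS⟩
  cases w with
  | nil => exact hy (Finset.mem_insert_self _ _)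
  | @cons _ z _ hadj _ =>
    have hadj' : G.Adj x z.1 := hadj
    exact z.2 ((G.mem_neighborFinset x z.1).mpr hadj')

theorem one_negative {V : Type} [Fintype V] (h4 : 4 ≤ Fintype.card V) (σ : Sym2 V → ℤˣ)
    (a b : V) (hab : a ≠ b) (hneg : σ s(a, b) = -1)
    (hpos : ∀ u v : V, u ≠ v → s(u, v) ≠ s(a, b) → σ s(u, v) = 1) :
    ¬ Balanced (⊤ : SimpleGraph V) σ ∧ ¬ NegPairProp (⊤ : SimpleGraph V) σ := by
  classical
  constructor
  · intro hB
    rw [balanced_iff] at hB
    obtain ⟨p, hp⟩ := hB
    obtain ⟨x, y, z, hx, hy, hz, hxy, hxz, hyz⟩ := exists_three h4 a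
    have hx' : a ≠ x := hx
    have hy' : a ≠ y := hy
    have hz' : a ≠ z := hz
    -- a third vertex
    have hc : ∃ c, c ≠ a ∧ c ≠ b := by
      by_cases h : x = b
      · exact ⟨y, hy'.symm, fun h' => hxy (by rw [h, h'])⟩
      · exact ⟨x, hx'.symm, h⟩
    obtain ⟨c, hca, hcb⟩ := hc
    have e1 := hp a b hab
    have e2 := hp a c hca.symm
    have e3 := hp b c hcb.symm
    have n2 : s(a, c) ≠ s(a, b) := fun h => hcb (Sym2.congr_right.mp h)
    have n3 : s(b, c) ≠ s(a, b) := by
      intro h
      rw [Sym2.eq_iff] at h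
      rcases h with h | h
      · exact hab h.1.symm
      · exact hca h.2
    rw [hneg] at e1
    rw [hpos a c hca.symm n2] at e2
    rw [hpos b c hcb.symm n3] at e3
    rcases Int.units_eq_one_or (p a) with q1 | q1 <;>
      rcases Int.units_eq_one_or (p b) with q2 | q2 <;>
      rcases Int.units_eq_one_or (p c) with q3 | q3 <;>
      rw [q1, q2] at e1 <;> rw [q1, q3] at e2 <;> rw [q2, q3] at e3 <;>
      revert e1 e2 e3 <;> decide
  · intro hN
    apply (necessary _ σ (exists_three h4) hN).1 a
    rw [balanced_iff]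
    refine ⟨fun _ => 1, ?_⟩
    intro u v huv
    rw [deleteIncidenceSet_adj] at huv
    rw [one_mul]
    apply hpos u v huv.1
    intro h
    rw [Sym2.eq_iff] at h
    rcases h with h | h
    · exact huv.2.1 h.1
    · exact huv.2.2 h.2

theorem result :
    -- complete graphs on at least four vertices: a characterisation
    (∀ (V : Type) [Fintype V] (σ : Sym2 V → ℤˣ), 4 ≤ Fintype.card V →
      (NegPairProp (⊤ : SimpleGraph V) σ ↔
        (∀ x : V, ¬ Balanced ((⊤ : SimpleGraph V).deleteIncidenceSet x) σ) ∧
        ∀ e ∈ (⊤ : SimpleGraph V).edgeSet, ∀ f ∈ (⊤ : SimpleGraph V).edgeSet, e ≠ f →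
          ¬ Balanced ((⊤ : SimpleGraph V).deleteEdges {e, f}) σ)) ∧
    -- the two conditions are necessary in every signed graph of minimum degree at least three
    (∀ (V : Type) (G : SimpleGraph V) (σ : Sym2 V → ℤˣ), MinDegThree G → NegPairProp G σ →
      (∀ x : V, ¬ Balanced (G.deleteIncidenceSet x) σ) ∧
      ∀ e ∈ G.edgeSet, ∀ f ∈ G.edgeSet, e ≠ f → ¬ Balanced (G.deleteEdges {e, f}) σ) ∧
    -- 3-connected graphs have minimum degree at least three
    (∀ (V : Type) [Fintype V] (G : SimpleGraph V), ThreeConnected G → MinDegThree G) ∧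
    -- the complete graph with exactly one negative edge refutes the conjecture
    (∀ (V : Type) [Fintype V] (σ : Sym2 V → ℤˣ) (a b : V), 4 ≤ Fintype.card V → a ≠ b →
      σ s(a, b) = -1 → (∀ u v : V, u ≠ v → s(u, v) ≠ s(a, b) → σ s(u, v) = 1) →
      ThreeConnected (⊤ : SimpleGraph V) ∧ ¬ Balanced (⊤ : SimpleGraph V) σ ∧
        ¬ NegPairProp (⊤ : SimpleGraph V) σ) := by
  refine ⟨?_, fun V G σ hd hN => necessary G σ hd hN,
    fun V _ G h => minDeg_of_threeConnected G h, ?_⟩
  · intro V _ σ h4
    exact ⟨fun hN => necessary _ σ (exists_three h4) hN, fun h => sufficient σ h.1 h.2⟩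
  · intro V _ σ a b h4 hab hneg hpos
    exact ⟨complete_threeConnected h4, one_negative h4 σ a b hab hneg hpos⟩

end Pool.Agent.Results.MP_790549_co.CompleteGraphs
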